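import Pool.Agent.Helper47.FLG.Fun
import Pool.Agent.Helper19.RFn.ONBb

/-!
# Packet FLG-MYS (MP_c98eff_gt): the local Myers theorem for a fixed metric
-/

set_option autoImplicit false

open Finset Pool.Agent.Helper47.RFn Pool.Agent.Helper73.RFn Pool.Agent.Helper19.RFn
  Pool.Agent.Helper19.RFn.ONB

namespace Pool.Agent.Helper94.FLG

open Pool.Agent.Helper47.FLG

variable {n : ℕ}

/-- variant of `geo` with `h p ≤ 0` -/
theorem geo' (hLip : LipStmt) (hDbd : DbdStmt) (hTrc : TrcStmt) (hn : 1 ≤ n) (G : MF n)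
    (hG : IsMetric G) (h : EE n → ℝ) (hh : Sm h)
    (hh1 : ∀ x, x ≠ 0 → ∑ i, ∑ j, (G x)⁻¹ i j * ed i h x * ed j h x ≤ 1)
    (l k R : ℝ) (hl0 : 0 < l) (hl1 : l < 1) (hR : 0 < R) (hRk : 2 * k < (1 - l) * R)
    (p : EE n) (hp : ‖p‖ = 1) (hhp : h p ≤ 0)
    (SP : ∀ q : EE n, ‖q‖ = 1 → ∀ ε > 0, ∃ v : EE n → ℝ, Sm v ∧
      (∀ x, x ≠ 0 → h x < 2 * R → ∑ i, ∑ j, (G x)⁻¹ i j * ed i v x * ed j v x ≤ l ^ 2) ∧
      ∀ x : EE n, ‖x‖ = 1 → |v x - gdist G q x| ≤ ε + k) :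
    (∀ x, x ≠ 0 → h x < R) ∧ ∀ x y : EE n, ‖x‖ = 1 → ‖y‖ = 1 → (1 - l) * gdist G x y ≤ 2 * k := by
  obtain ⟨-, hd0, -, -, -, hself, -, -, -⟩ := hDbd n G hn hG
  have hA1 : ∀ y : EE n, ‖y‖ = 1 → h y < R := by
    by_contra hcon
    push Not at hcon
    obtain ⟨y0, hy0, hy0R⟩ := hcon
    set S : Set ℝ := {r | ∃ y : EE n, ‖y‖ = 1 ∧ R ≤ h y ∧ r = gdist G p y} with hS
    have hbdd : BddBelow S := ⟨0, by rintro r ⟨y, -, -, rfl⟩; exact hd0 p y⟩
    have hne : S.Nonempty := ⟨_, y0, hy0, hy0R, rfl⟩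
    set dS : ℝ := sInf S with hdS
    have hle : ∀ y : EE n, ‖y‖ = 1 → R ≤ h y → dS ≤ gdist G p y := fun y h1 h2 =>
      csInf_le hbdd ⟨y, h1, h2, rfl⟩
    have hRd : R ≤ dS := by
      refine le_csInf hne ?_
      rintro r ⟨y, h1, h2, rfl⟩
      have h3 := hLip n G h 1 hn hG hh zero_le_one (by simpa using hh1) p y hp h1
      rw [one_mul] at h3
      have h4 := (abs_le.mp h3).1
      linarith
    set δ : ℝ := (1 - l) * R - 2 * k with hδ
    have hδ0 : 0 < δ := by rw [hδ]; linarith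
    obtain ⟨v, hv, hv1, hv2⟩ := SP p hp (δ / 4) (by linarith)
    have hw1 : ∀ x, x ≠ 0 → h x < 2 * R →
        ∑ i, ∑ j, (G x)⁻¹ i j * ed i (fun y => l⁻¹ * v y) x * ed j (fun y => l⁻¹ * v y) x ≤ 1 := by
      intro x hx hxR
      rw [gq_smul G hv]
      have h4 := hv1 x hx hxR
      calc l⁻¹ ^ 2 * _ ≤ l⁻¹ ^ 2 * l ^ 2 := mul_le_mul_of_nonneg_left h4 (by positivity)
        _ = 1 := by field_simp
    have hw2 : ∀ x, x ≠ 0 → R ≤ h x → h x < 2 * R → l⁻¹ * (dS - δ / 4 - k) ≤ l⁻¹ * v x := by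
      intro x hx h1 _
      refine mul_le_mul_of_nonneg_left ?_ (inv_nonneg.mpr hl0.le)
      have h5 := hv2 _ (norm_unit hx)
      rw [hom_unit hv.hom hx] at h5
      have h6 := hle _ (norm_unit hx) (by rw [hom_unit hh.hom hx]; exact h1)
      have h7 := (abs_le.mp h5).1
      linarith
    have hT := hTrc n G h (fun y => l⁻¹ * v y) R (2 * R) (l⁻¹ * (dS - δ / 4 - k)) p hn hG hh (sm_smul hv _)
      (by linarith) hw1 hw2 hp (lt_of_le_of_lt hhp hR)
    have h8 : l⁻¹ * (dS - δ / 4 - k) - l⁻¹ * v p ≤ dS := by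
      refine le_csInf hne ?_
      rintro r ⟨y, h1, h2, rfl⟩
      exact hT y h1 h2
    have h9 := hv2 p hp
    rw [hself p hp, sub_zero] at h9
    have h10 := (abs_le.mp h9).2
    have h11 : dS - δ / 4 - k - v p ≤ l * dS := by
      have h12 : l⁻¹ * (dS - δ / 4 - k - v p) ≤ dS := by rw [mul_sub]; exact h8
      have h13 := mul_le_mul_of_nonneg_left h12 hl0.le
      rwa [← mul_assoc, mul_inv_cancel₀ hl0.ne', one_mul] at h13
    have h14 : (1 - l) * R ≤ (1 - l) * dS := mul_le_mul_of_nonneg_left hRd (by linarith)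
    rw [hδ] at h10 h11
    nlinarith
  have hA : ∀ x, x ≠ 0 → h x < R := by
    intro x hx
    have := hA1 _ (norm_unit hx)
    rwa [hom_unit hh.hom hx] at this
  refine ⟨hA, ?_⟩
  intro x y hx hy
  refine le_of_forall_pos_le_add fun ε hε => ?_
  obtain ⟨v, hv, hv1, hv2⟩ := SP x hx (ε / 2) (by linarith)
  have h1 := hLip n G v l hn hG hv hl0.le (fun z hz => hv1 z hz (by linarith [hA z hz])) x y hx hy
  have h2 := hv2 x hx
  rw [hself x hx, sub_zero] at h2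
  have h3 := hv2 y hy
  have h4 := (abs_le.mp h2).2
  have h5 := (abs_le.mp h3).1
  have h6 := (abs_le.mp h1).1
  linarith

theorem smFam1_mono {I J : Set ℝ} {f f' : ℝ → EE n → ℝ} (hJ : J ⊆ I) (h : SmFam1 I f f') :
    SmFam1 J f f' where
  fam := ⟨fun t ht => h.fam.sm t (hJ ht),
    fun w => (h.fam.cont w).mono (Set.prod_mono hJ (le_refl _))⟩
  fam' := ⟨fun t ht => h.fam'.sm t (hJ ht),
    fun w => (h.fam'.cont w).mono (Set.prod_mono hJ (le_refl _))⟩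
  der := fun w x hx t ht => (h.der w x hx t (hJ ht)).mono hJ

theorem exp_small : Real.exp (-2) + Real.exp (-3) ≤ 1 / 4 := by
  have h1 : (2.7 : ℝ) < Real.exp 1 := lt_trans (by norm_num) Real.exp_one_gt_d9
  have e2 : Real.exp (-2) = (Real.exp 1 ^ 2)⁻¹ := by
    rw [Real.exp_neg, ← Real.exp_nat_mul]; norm_num
  have e3 : Real.exp (-3) = (Real.exp 1 ^ 3)⁻¹ := by
    rw [Real.exp_neg, ← Real.exp_nat_mul]; norm_num
  have h2 : (7 : ℝ) ≤ Real.exp 1 ^ 2 := by nlinarith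
  have h3 : (18 : ℝ) ≤ Real.exp 1 ^ 3 := by
    have : Real.exp 1 ^ 3 = Real.exp 1 ^ 2 * Real.exp 1 := by ring
    rw [this]; nlinarith
  rw [e2, e3]
  have h4 : (Real.exp 1 ^ 2)⁻¹ ≤ 1 / 7 := by
    rw [inv_eq_one_div]; exact one_div_le_one_div_of_le (by norm_num) h2
  have h5 : (Real.exp 1 ^ 3)⁻¹ ≤ 1 / 18 := by
    rw [inv_eq_one_div]; exact one_div_le_one_div_of_le (by norm_num) h3
  linarith

/-- the static heat solution of a function with gradient at most one -/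
theorem sheat (hn : 2 ≤ n) (hShx : ShxStmt) (hShc : ShcStmt) (hInt : IntStmt) (T : ℝ) (hT : 0 < T)
    (A θ : MF n) (hF : Frm A θ) (hR0 : ∀ x, x ≠ 0 → RcF 0 A θ x) (f : EE n → ℝ) (hf : Sm f)
    (hf1 : ∀ x, x ≠ 0 → ggf A f f x ≤ 1) :
    ∃ u : ℝ → EE n → ℝ, HeatS (Set.Ico 0 T) A θ u ∧ (∀ x, x ≠ 0 → ggf A (u 0) (u 0) x ≤ 1) ∧
      (∀ t, 0 ≤ t → t < T → Sm (u t)) ∧
      (∀ t, 0 ≤ t → t < T → ∀ x, x ≠ 0 → |u t x - f x| ≤ 2 * Real.sqrt (n + 1) * Real.sqrt t) := by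
  obtain ⟨u, hu, hu0⟩ := hShx n hn T A θ hT hF f hf
  have hsub : Set.Ico 0 T ⊆ Set.Icc 0 T := Set.Ico_subset_Icc_self
  have hu' : HeatS (Set.Ico 0 T) A θ u := smFam1_mono hsub hu
  have hg0 : ∀ x, x ≠ 0 → ggf A (u 0) (u 0) x ≤ 1 := fun x hx => by
    rw [ggf_congr hu0 hx]; exact hf1 x hx
  have hH := (hShc n T A θ hn hT hF hR0).1 u hu' hg0
  refine ⟨u, hu', hg0, fun t h0 h1 => hu'.fam.sm t ⟨h0, h1⟩, ?_⟩
  intro t h0 h1 x hx
  have h2 := hInt (fun s => u s x) (fun s => Lapf A θ (u s) x) T (Real.sqrt (n + 1))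
    (Real.sqrt_nonneg _)
    (fun s hs => by
      have := hu'.der [] x hx s hs
      simpa only [Ew] using this)
    (fun s hs0 hs1 => by
      have h3 := (hH s hs0 hs1 x hx).2
      have hs : 0 < Real.sqrt s := Real.sqrt_pos.mpr hs0
      rw [le_div_iff₀ hs]
      have h4 : |Lapf A θ (u s) x| * Real.sqrt s
          = Real.sqrt (s * Lapf A θ (u s) x ^ 2) := by
        rw [Real.sqrt_mul hs0.le, Real.sqrt_sq_eq_abs, mul_comm]
      rw [h4]
      exact Real.sqrt_le_sqrt h3) t h0 h1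
  have h5 : u 0 x = f x := hu0 x hx
  simpa only [h5] using h2

/-- packet FLG-MYS -/
theorem p_MYS (hShx : ShxStmt) (hShc : ShcStmt) (hSmo : SmoStmt) (hLip : LipStmt) (hDbd : DbdStmt)
    (hFhm : FhmStmt) (hTrc : TrcStmt) (hInt : IntStmt) : MysStmt := by
  intro n hn
  set κ : ℝ := 2 * Real.sqrt (n + 1) with hκ
  have hκ0 : 0 ≤ κ := by positivity
  refine ⟨10 * κ + 5, by positivity, ?_⟩
  intro A θ hF hR0 k h p hk hh hh1 hp hhp hRk
  have hsk : 0 < Real.sqrt k := Real.sqrt_pos.mpr hk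
  have hsk2 : Real.sqrt k * Real.sqrt k = k := Real.mul_self_sqrt hk.le
  obtain ⟨hGm, -, -, -, -, -, -, -, -, -, hgg, -, -, -, -⟩ := (hFhm n).1 A θ hF
  have hT : 0 < 2 / k := by positivity
  have ht1 : 0 < 1 / k := by positivity
  have ht1T : 1 / k < 2 / k := div_lt_div_of_pos_right (by norm_num) hk
  have hkt1 : k * (1 / k) = 1 := by field_simp
  have hsq : ∀ t, 0 ≤ t → k * t ≤ 1 → κ * Real.sqrt t ≤ κ / Real.sqrt k := by
    intro t ht hkt
    have e1 : Real.sqrt k * Real.sqrt t ≤ 1 := by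
      rw [← Real.sqrt_mul hk.le]
      exact Real.sqrt_le_one.mpr hkt
    have e2 : Real.sqrt t ≤ 1 / Real.sqrt k := by
      rw [le_div_iff₀ hsk]; linarith
    calc κ * Real.sqrt t ≤ κ * (1 / Real.sqrt k) := mul_le_mul_of_nonneg_left e2 hκ0
      _ = κ / Real.sqrt k := by ring
  obtain ⟨w, hw, hw0, -, hwb⟩ := sheat hn hShx hShc hInt (2 / k) hT A θ hF hR0 h hh hh1
  set R : ℝ := (4 * κ + 1 / 2) / Real.sqrt k with hR
  have hRpos : 0 < R := by positivity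
  have SP : ∀ q : EE n, ‖q‖ = 1 → ∀ ε > 0, ∃ v : EE n → ℝ, Sm v ∧
      (∀ x, x ≠ 0 → h x < 2 * R → ∑ i, ∑ j, (gOf θ x)⁻¹ i j * ed i v x * ed j v x ≤ (1 / 2) ^ 2) ∧
      ∀ x : EE n, ‖x‖ = 1 → |v x - gdist (gOf θ) q x| ≤ ε + κ / Real.sqrt k := by
    intro q hq ε hε
    obtain ⟨f, hf, hf1, hf2⟩ := hSmo n (gOf θ) q ε (by omega) hGm hq hε
    obtain ⟨u, hu, hu0, huS, hub⟩ := sheat hn hShx hShc hInt (2 / k) hT A θ hF hR0 f hf
      (fun x hx => by rw [(hgg f f hf hf).2 x]; exact hf1 x hx)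
    have hv := huS (1 / k) ht1.le ht1T
    refine ⟨u (1 / k), hv, ?_, ?_⟩
    · intro x hx hxR
      rw [← (hgg _ _ hv hv).2 x]
      have key := (hShc n (2 / k) A θ hn hT hF hR0).2 u w k ((9 * κ + 5) / Real.sqrt k) hk hu hw hu0
        hw0 (by
          intro t ht htT hkt z hz hwz
          refine hRk z hz ?_
          have e1 := (abs_le.mp (hwb t ht.le htT z hz)).1
          have e2 := hsq t ht.le hkt
          have e3 : (10 * κ + 5) / Real.sqrt k = (9 * κ + 5) / Real.sqrt k + κ / Real.sqrt k := by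
            ring
          rw [e3]
          linarith) (1 / k) ht1 ht1T hkt1.le x hx
      have e1 := (abs_le.mp (hwb (1 / k) ht1.le ht1T x hx)).2
      have e2 := hsq (1 / k) ht1.le hkt1.le
      have e3 : w (1 / k) x - (9 * κ + 5) / Real.sqrt k ≤ -4 / Real.sqrt k := by
        have e4 : 2 * R = (8 * κ + 1) / Real.sqrt k := by rw [hR]; ring
        rw [e4] at hxR
        have e5 : (8 * κ + 1) / Real.sqrt k + κ / Real.sqrt k - (9 * κ + 5) / Real.sqrt k =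
            -4 / Real.sqrt k := by ring
        linarith
      have e6 : Real.sqrt k * (w (1 / k) x - (9 * κ + 5) / Real.sqrt k) + k * (1 / k) ≤ -3 := by
        have := mul_le_mul_of_nonneg_left e3 hsk.le
        have e7 : Real.sqrt k * (-4 / Real.sqrt k) = -4 := by field_simp
        rw [hkt1]; linarith
      have e8 : Real.exp (-(2 * k * (1 / k))) = Real.exp (-2) := by
        congr 1
        have : 2 * k * (1 / k) = 2 * (k * (1 / k)) := by ring
        rw [this, hkt1]; norm_num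
      rw [e8] at key
      have e9 := Real.exp_le_exp.mpr e6
      have e10 := exp_small
      have e11 : (1 / 2 : ℝ) ^ 2 = 1 / 4 := by norm_num
      rw [e11]
      linarith
    · intro x hx
      have e1 := (hub (1 / k) ht1.le ht1T x (ne_of_unit hx)).trans (hsq (1 / k) ht1.le hkt1.le)
      have e2 := hf2 x hx
      have e3 := abs_sub_le (u (1 / k) x) (f x) (gdist (gOf θ) q x)
      linarith
  have hp1 : ‖(‖p‖)⁻¹ • p‖ = 1 := norm_unit hp
  have hhp1 : h ((‖p‖)⁻¹ • p) ≤ 0 := by rw [hom_unit hh.hom hp]; exact hhp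
  have hgeo := geo' hLip hDbd hTrc (by omega) (gOf θ) hGm h hh
    (fun x hx => by rw [← (hgg h h hh hh).2 x]; exact hh1 x hx) (1 / 2) (κ / Real.sqrt k) R
    (by norm_num) (by norm_num) hRpos (by
      have e : (1 - 1 / 2) * R = 2 * (κ / Real.sqrt k) + 1 / 4 / Real.sqrt k := by rw [hR]; ring
      rw [e]
      have : 0 < 1 / 4 / Real.sqrt k := by positivity
      linarith) _ hp1 hhp1 SP
  intro x y hx hy
  have e1 := hgeo.2 x y hx hy
  have e2 : (10 * κ + 5) / Real.sqrt k = 4 * (κ / Real.sqrt k) + (6 * κ + 5) / Real.sqrt k := by ring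
  have e3 : 0 ≤ (6 * κ + 5) / Real.sqrt k := by positivity
  rw [e2]
  linarith

end Pool.Agent.Helper94.FLG
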